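import Pool.Agent.Q63.RZ.Wm

/-!
# The zeta function on the critical line around its local maxima: M. Riesz' inequality with the
sharp constant, against the maximum over a window of bounded length, and the gap between the
zeros around the maximum
-/

set_option autoImplicit false

open Complex

namespace Pool.Agent.Results.MP_af3d17_nt.GapsAroundMaxima

/-- For every `ε > 0` there are `D, t₀` such that for all `t ≥ t₀` for which `|ζ(1/2 + it)|` is
the maximum of `|ζ(1/2 + iu)|` over `|u - t| ≤ D`: the cosine lower bound next to `t` holds, and so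
every zero on the critical line is at distance at least `(1 - ε) π / log t` from `t`. -/
theorem result (ε : ℝ) (hε : 0 < ε) : ∃ D t₀ : ℝ, ∀ t : ℝ, t₀ ≤ t →
    (∀ u : ℝ, |u - t| ≤ D → ‖riemannZeta (1 / 2 + u * I)‖ ≤ ‖riemannZeta (1 / 2 + t * I)‖) →
      (∀ x : ℝ, |x| ≤ Real.pi / Real.log t →
        (Real.cos (x * Real.log t / 2) - ε) * ‖riemannZeta (1 / 2 + t * I)‖ ≤
          ‖riemannZeta (1 / 2 + (t + x) * I)‖) ∧
      (∀ γ : ℝ, riemannZeta (1 / 2 + γ * I) = 0 →
        (1 - ε) * Real.pi / Real.log t ≤ |t - γ|) := by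
  have hπ := Real.pi_pos
  -- parameters
  set ρ : ℝ := min 1 (ε / 2) with hρ
  have hρ0 : 0 < ρ := lt_min one_pos (by positivity)
  have hρ1 : ρ ≤ 1 := min_le_left _ _
  have hρ2 : 2 * ρ ≤ ε := by
    have : ρ ≤ ε / 2 := min_le_right _ _
    linarith
  set ε₀ : ℝ := min 1 ε with hε₀
  have hε₀0 : 0 < ε₀ := lt_min one_pos hε
  have hε₀1 : ε₀ ≤ 1 := min_le_left _ _
  have hε₀2 : ε₀ ≤ ε := min_le_right _ _
  have hc : Real.cos (ε₀ * Real.pi / 2) < 1 := by
    rw [← Real.cos_zero]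
    apply Real.cos_lt_cos_of_nonneg_of_le_pi le_rfl
    · nlinarith
    · positivity
  set κ : ℝ := (1 - Real.cos (ε₀ * Real.pi / 2)) / 4 with hκ
  have hκ0 : 0 < κ := by
    have : 0 < 1 - Real.cos (ε₀ * Real.pi / 2) := by linarith
    positivity
  set δ : ℝ := min (min (ρ ^ 2 / 16) κ) (ε / 2) with hδ
  have hδ0 : 0 < δ := lt_min (lt_min (by positivity) hκ0) (by positivity)
  have hδ1 : δ ≤ ρ ^ 2 / 16 := (min_le_left _ _).trans (min_le_left _ _)
  have hδ2 : δ ≤ κ := (min_le_left _ _).trans (min_le_right _ _)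
  have hδ3 : δ ≤ ε / 2 := min_le_right _ _
  obtain ⟨D, hD, H⟩ := Q63.RZ.tpw hδ0
  obtain ⟨t₁, ht₁⟩ := Filter.eventually_atTop.mp H
  refine ⟨D, max t₁ 2, ?_⟩
  intro t ht hmax
  have ht2 : 2 ≤ t := (le_max_right _ _).trans ht
  have ht3 : t₁ ≤ t := (le_max_left _ _).trans ht
  have hL0 : 0 < Real.log t := Real.log_pos (by linarith)
  obtain ⟨hM0, htp⟩ := ht₁ t ht3 _ hmax
  set M : ℝ := ‖riemannZeta (1 / 2 + t * I)‖ with hM
  have hself : ‖riemannZeta (1 / 2 + I * t)‖ = M := by rw [hM, mul_comm I]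
  refine ⟨?_, ?_⟩
  · intro x hx
    rw [le_div_iff₀ hL0] at hx
    have key := (htp.mono hδ1 (by linarith) hM0.le).max hρ0 hρ1 hρ2 (by linarith) hM0.le hself.ge hx
    have e : Real.cos (|x| * Real.log t / 2) = Real.cos (x * Real.log t / 2) := by
      rw [← Real.cos_abs (x * Real.log t / 2), abs_div, abs_mul, abs_of_pos hL0, abs_two]
    rwa [e, mul_comm I] at key
  · intro γ hγ
    rw [mul_comm] at hγ
    have key := htp.gap hδ0.le hε₀0 (by linarith) (by linarith) hM0 hself.le hself.ge hγ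
    refine le_trans ?_ key
    gcongr

end Pool.Agent.Results.MP_af3d17_nt.GapsAroundMaxima
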