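import Pool.Agent.Q97.UM.Base16
import Pool.Agent.Q97.UM.Coh2

set_option autoImplicit false

/-!
# MP_af3d17_nt: small and large gaps between zeros at every size of zeta

No hypothesis is made. Let `W(γ)` be the mean value of `log |ζ(1/2 + it)|` over the interval `|t - γ| ≤ 1 / log T`. There is `η > 0` such that for
EVERY real `k`, around at least `T (log T)^(1 - k²) exp (-C √(log log T))` zeros with ordinate in `(T, 2T]` zeta has the size `(log T)^k`, up to a
factor `exp (± A √(log log T))`, and the zero is multiple or has another zero with ordinate at distance at most `1 - η` times the average spacing;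
and the same for gaps of at least `1 + η` times the average spacing. (The number of all zeros with this property is expected to be
`T (log T)^(1 - k² + o(1))`.)
-/

namespace Pool.Agent.Results.MP_af3d17_nt.GapsAtEveryLevel

open Filter Topology MeasureTheory Complex

noncomputable section

/-- the nontrivial zeros of zeta with ordinate in `(T, 2T]` -/
def zeros (T : ℝ) : Set ℂ := {s : ℂ | riemannZeta s = 0 ∧ 0 < s.re ∧ s.re < 1 ∧ T < s.im ∧ s.im ≤ 2 * T}

/-- the average spacing -/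
def spacing (T : ℝ) : ℝ := 2 * Real.pi / Real.log T

/-- the zeros which are multiple or have another zero with ordinate at distance at most `(1 - η)` average spacings -/
def close (η T : ℝ) : Set ℂ := {s : ℂ | s ∈ zeros T ∧ (2 ≤ analyticOrderNatAt riemannZeta s ∨
  ∃ s' : ℂ, riemannZeta s' = 0 ∧ 0 < s'.re ∧ s'.re < 1 ∧ s' ≠ s ∧ |s'.im - s.im| ≤ (1 - η) * spacing T)}

/-- the zeros whose ordinate is not followed by another ordinate at distance less than `(1 + η)` average spacings -/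
def apart (η T : ℝ) : Set ℂ := {s : ℂ | s ∈ zeros T ∧
  ∀ s' : ℂ, riemannZeta s' = 0 → 0 < s'.re → s'.re < 1 → ¬ (s.im < s'.im ∧ s'.im < s.im + (1 + η) * spacing T)}

/-- the mean value of `log |ζ(1/2 + it)|` over `|t - γ| ≤ 1 / log T` -/
def W (T γ : ℝ) : ℝ := Real.log T / 2 * ∫ t in (γ - 1 / Real.log T)..(γ + 1 / Real.log T), Real.log ‖riemannZeta (1 / 2 + t * I)‖

/-- the ordinates near which zeta has the size `(log T)^k`, up to a factor `exp (± A √(log log T))` -/
def level (k A T : ℝ) : Set ℂ := {s : ℂ | |W T s.im - k * Real.log (Real.log T)| ≤ A * Real.sqrt (Real.log (Real.log T))}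

lemma zeros_eq (T : ℝ) : zeros T = H370.zset riemannZeta T (2 * T) := by
  ext s
  simp only [zeros, H370.zset, Set.mem_ofPred_eq]
  tauto

theorem zeros_finite (T : ℝ) (h : 0 < T) : (zeros T).Finite := by
  rw [zeros_eq]
  exact H370.zset_finite' H370.good_zeta T (2 * T) h

lemma mem_iff {T : ℝ} (hT : 1 ≤ T) (s : ℂ) : s ∈ zeros T ↔ s ∈ H370.Zf riemannZeta T (2 * T) := by
  rw [H370.mem_Zf H370.good_zeta hT, zeros_eq]

lemma near_mem {T x : ℝ} (hT : 16 ≤ T) {s s' : ℂ} (hs : s ∈ zeros T) (h0 : riemannZeta s' = 0) (h1 : 0 < s'.re) (h2 : s'.re < 1)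
    (hx : x ≤ 8) (hd : |s'.im - s.im| ≤ x) : s' ∈ Pool.Agent.Q97.UM.ZD T := by
  unfold Pool.Agent.Q97.UM.ZD
  rw [H370.mem_Zf H370.good_zeta (by linarith : (1 : ℝ) ≤ T / 16)]
  obtain ⟨_, _, _, h3, h4⟩ := hs
  rw [abs_le] at hd
  exact ⟨h1, h2, by linarith, by linarith, h0⟩

open Classical in
lemma close_eq {η T : ℝ} (hT : 16 ≤ T) (hη : 0 < η) (hη1 : η ≤ 1 / 2) : close η T =
    (((H370.Zf riemannZeta T (2 * T)).filter (fun s => 2 ≤ Pool.Agent.Q97.UM.mz s ∨
      ∃ s' ∈ Pool.Agent.Q97.UM.ZD T, s' ≠ s ∧ |s'.im - s.im| ≤ (1 - η) * (2 * Real.pi / Real.log T)) : Finset ℂ) : Set ℂ) := by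
  have hlog : 1 ≤ Real.log T := by
    rw [Real.le_log_iff_exp_le (by linarith)]
    have := Real.exp_one_lt_d9
    linarith
  have hsp : (1 - η) * (2 * Real.pi / Real.log T) ≤ 8 := by
    have hpi := Real.pi_lt_four
    have h1 : 2 * Real.pi / Real.log T ≤ 8 := by
      rw [div_le_iff₀ (by linarith)]
      nlinarith
    have h0 : 0 ≤ 2 * Real.pi / Real.log T := by positivity
    nlinarith
  ext s
  simp only [close, Set.mem_ofPred_eq, Finset.coe_filter]
  constructor
  · rintro ⟨hs, h⟩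
    refine ⟨?_, ?_⟩
    · exact (mem_iff (by linarith) s).1 hs
    · rcases h with h | ⟨s', h0, h1, h2, h3, h4⟩
      · exact Or.inl h
      · exact Or.inr ⟨s', near_mem hT hs h0 h1 h2 hsp h4, h3, h4⟩
  · rintro ⟨hs, h⟩
    have hs' : s ∈ zeros T := (mem_iff (by linarith) s).2 hs
    refine ⟨hs', ?_⟩
    rcases h with h | ⟨s', h0, h3, h4⟩
    · exact Or.inl h
    · unfold Pool.Agent.Q97.UM.ZD at h0
      rw [H370.mem_Zf H370.good_zeta (by linarith : (1 : ℝ) ≤ T / 16)] at h0
      exact Or.inr ⟨s', h0.2.2.2.2, h0.1, h0.2.1, h3, h4⟩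

open Classical in
lemma apart_eq {η T : ℝ} (hT : 16 ≤ T) (hη : 0 < η) (hη1 : η ≤ 1 / 2) : apart η T =
    (((H370.Zf riemannZeta T (2 * T)).filter (fun s => ∀ s' ∈ Pool.Agent.Q97.UM.ZD T,
      ¬ (s.im < s'.im ∧ s'.im < s.im + (1 + η) * (2 * Real.pi / Real.log T))) : Finset ℂ) : Set ℂ) := by
  have hlog : 1 ≤ Real.log T := by
    rw [Real.le_log_iff_exp_le (by linarith)]
    have := Real.exp_one_lt_d9
    linarith
  have hlog2 : (2 : ℝ) ≤ Real.log T := by
    rw [Real.le_log_iff_exp_le (by linarith)]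
    have h1 := Real.exp_one_lt_d9
    have h2 : Real.exp 2 = Real.exp 1 * Real.exp 1 := by rw [← Real.exp_add]; norm_num
    rw [h2]
    have := Real.exp_pos 1
    nlinarith
  have hsp : (1 + η) * (2 * Real.pi / Real.log T) ≤ 8 := by
    have hpi := Real.pi_lt_four
    have h1 : 2 * Real.pi / Real.log T ≤ 4 := by
      rw [div_le_iff₀ (by linarith)]
      nlinarith
    have h0 : 0 ≤ 2 * Real.pi / Real.log T := by positivity
    nlinarith
  ext s
  simp only [apart, Set.mem_ofPred_eq, Finset.coe_filter]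
  constructor
  · rintro ⟨hs, h⟩
    refine ⟨?_, ?_⟩
    · exact (mem_iff (by linarith) s).1 hs
    · intro s' h0
      unfold Pool.Agent.Q97.UM.ZD at h0
      rw [H370.mem_Zf H370.good_zeta (by linarith : (1 : ℝ) ≤ T / 16)] at h0
      exact h s' h0.2.2.2.2 h0.1 h0.2.1
  · rintro ⟨hs, h⟩
    have hs' : s ∈ zeros T := (mem_iff (by linarith) s).2 hs
    refine ⟨hs', ?_⟩
    intro s' h0 h1 h2 h3
    refine h s' (near_mem hT hs' h0 h1 h2 hsp ?_) h3
    rw [abs_le]
    unfold spacing at h3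
    constructor <;> linarith [h3.1, h3.2]

theorem result :
    (∀ T : ℝ, 0 < T → (zeros T).Finite) ∧
    ∃ η : ℝ, 0 < η ∧ ∀ k : ℝ, ∃ A C T₀ : ℝ, ∀ T : ℝ, T₀ ≤ T →
      T * Real.log T ^ (1 - k ^ 2) * Real.exp (-C * Real.sqrt (Real.log (Real.log T))) ≤ ((close η T ∩ level k A T).ncard : ℝ) ∧
      T * Real.log T ^ (1 - k ^ 2) * Real.exp (-C * Real.sqrt (Real.log (Real.log T))) ≤ ((apart η T ∩ level k A T).ncard : ℝ) := by
  classical
  refine ⟨zeros_finite, ?_⟩
  obtain ⟨η, hη, hη1, h⟩ := Pool.Agent.Q97.UM.gaps_level Pool.Agent.Q97.UM.b_COH Pool.Agent.Q97.UM.b_CLW Pool.Agent.Q84.UM.t_DPM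
  refine ⟨η, hη, fun k => ?_⟩
  obtain ⟨A, C, hA, hC, hk⟩ := h k
  obtain ⟨T₀, hT₀⟩ := eventually_atTop.1 (hk.and (eventually_ge_atTop (16 : ℝ)))
  refine ⟨A, C, T₀, fun T hT => ?_⟩
  obtain ⟨⟨h1, h2⟩, h3⟩ := hT₀ T hT
  have hL : 0 < Real.log T := Real.log_pos (by linarith)
  have e1 : T * Real.log T ^ (1 - k ^ 2) * Real.exp (-C * Real.sqrt (Real.log (Real.log T))) =
      T * Real.exp ((1 - k ^ 2) * Real.log (Real.log T) - C * Real.sqrt (Real.log (Real.log T))) := by
    rw [Real.rpow_def_of_pos hL, mul_assoc, ← Real.exp_add]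
    congr 2
    ring
  rw [e1]
  have hlev : ∀ s : ℂ, s ∈ level k A T ↔
      |Pool.Agent.Q97.UM.LM T s.im - k * Real.log (Real.log T)| ≤ A * Real.sqrt (Real.log (Real.log T)) := fun s => Iff.rfl
  constructor
  · have e2 : close η T ∩ level k A T = (((Pool.Agent.Q97.UM.Zcl η T).filter (fun s =>
        |Pool.Agent.Q97.UM.LM T s.im - k * Real.log (Real.log T)| ≤ A * Real.sqrt (Real.log (Real.log T))) : Finset ℂ) : Set ℂ) := by
      rw [close_eq h3 hη hη1]
      ext s
      simp only [Set.mem_inter_iff, Finset.mem_coe, Finset.mem_filter, hlev, Pool.Agent.Q97.UM.Zcl]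
    rw [e2, Set.ncard_coe_finset]
    exact h1
  · have e2 : apart η T ∩ level k A T = (((Pool.Agent.Q97.UM.Zap η T).filter (fun s =>
        |Pool.Agent.Q97.UM.LM T s.im - k * Real.log (Real.log T)| ≤ A * Real.sqrt (Real.log (Real.log T))) : Finset ℂ) : Set ℂ) := by
      rw [apart_eq h3 hη hη1]
      ext s
      simp only [Set.mem_inter_iff, Finset.mem_coe, Finset.mem_filter, hlev, Pool.Agent.Q97.UM.Zap]
    rw [e2, Set.ncard_coe_finset]
    exact h2

end

end Pool.Agent.Results.MP_af3d17_nt.GapsAtEveryLevel
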