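import Pool.Agent.Q97.UM.IsoF

set_option autoImplicit false

/-!
# MP_af3d17_nt: isolated zeros, relative to every Dirichlet polynomial

Unconditionally, there are `d > 0` and `θ > 0` such that for all large `T`, all `N ≤ T ^ θ` and ALL complex numbers `b_1, …, b_N`, with
`B(t) = ∑ b_n n^(-1/2 - it)`: the sum of `|B(γ)|²` over the simple zeros `1/2 + iγ` of zeta, `T < γ ≤ 2T`, whose distance to every other
nontrivial zero is at least `d / log T`, is at least `67.25` percent of the sum over all nontrivial zeros with ordinates in `(T, 2T]`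
(with multiplicity). So the zeros which have another zero at distance less than `d / log T`, or are multiple or off the line, carry at
most `32.75` percent of the mass of any Dirichlet polynomial of length `T ^ θ`.
-/

namespace Pool.Agent.Results.MP_af3d17_nt.IsolatedForEveryPolynomial

open Filter Topology MeasureTheory Complex

noncomputable section

/-- the Dirichlet polynomial with coefficients `b_1, …, b_N` on the critical line -/
def B (N : ℕ) (b : ℕ → ℂ) (t : ℝ) : ℂ := ∑ n ∈ Finset.Icc 1 N, b n * (n : ℂ) ^ (-(1 / 2 + t * I))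

/-- `(log T / 2π) ∫_T^{2T} |B|²` -/
def Mean (T : ℝ) (N : ℕ) (b : ℕ → ℂ) : ℝ := Real.log T / (2 * Real.pi) * ∫ t in T..(2 * T), ‖B N b t‖ ^ 2

/-- the nontrivial zeros of zeta with ordinate in `(T, 2T]` -/
def zeros (T : ℝ) : Set ℂ := {s : ℂ | riemannZeta s = 0 ∧ 0 < s.re ∧ s.re < 1 ∧ T < s.im ∧ s.im ≤ 2 * T}

/-- the sum of `|B|²` over the ordinates of these zeros, with multiplicity -/
def All (T : ℝ) (N : ℕ) (b : ℕ → ℂ) : ℝ := ∑ᶠ s ∈ zeros T, (analyticOrderNatAt riemannZeta s : ℝ) * ‖B N b s.im‖ ^ 2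

/-- the numbers `γ` in `(T, 2T]` for which `1/2 + iγ` is a simple zero of zeta at distance at least `d / log T` from every other
nontrivial zero -/
def isolated (d T : ℝ) : Set ℝ :=
  {γ : ℝ | T < γ ∧ γ ≤ 2 * T ∧ riemannZeta (1 / 2 + γ * I) = 0 ∧ deriv riemannZeta (1 / 2 + γ * I) ≠ 0 ∧
    ∀ ρ : ℂ, riemannZeta ρ = 0 → 0 < ρ.re → ρ.re < 1 → ρ ≠ 1 / 2 + γ * I → d / Real.log T ≤ ‖ρ - (1 / 2 + γ * I)‖}

/-- the sum of `|B|²` over them -/
def Isolated (d T : ℝ) (N : ℕ) (b : ℕ → ℂ) : ℝ := ∑ᶠ γ ∈ isolated d T, ‖B N b γ‖ ^ 2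

/-- the Montgomery-Taylor constant `1.3274…` -/
def c : ℝ := 1 / 2 + Real.cot (1 / Real.sqrt 2) / Real.sqrt 2

lemma zeros_eq (T : ℝ) : zeros T = H370.zset riemannZeta T (2 * T) := by
  ext s
  simp only [zeros, H370.zset, Set.mem_ofPred_eq]
  tauto

theorem zeros_finite (T : ℝ) (h : 0 < T) : (zeros T).Finite := by
  rw [zeros_eq]
  exact H370.zset_finite' H370.good_zeta T (2 * T) h

theorem isolated_finite (d T : ℝ) (h : 0 < T) : (isolated d T).Finite := by
  have hinj : Function.Injective fun t : ℝ => (1 / 2 + t * I : ℂ) := by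
    intro a b hab
    have := congrArg Complex.im hab
    simpa using this
  refine Set.Finite.of_finite_image ((zeros_finite T h).subset ?_) hinj.injOn
  rintro s ⟨t, ⟨h1, h2, h3, h4⟩, rfl⟩
  refine ⟨h3, ?_, ?_, ?_, ?_⟩ <;> simp <;> first | assumption | norm_num

lemma all_eq (T : ℝ) (h : 1 ≤ T) (N : ℕ) (b : ℕ → ℂ) :
    All T N b = ∑ s ∈ H370.Zf riemannZeta T (2 * T), (Pool.Agent.Q97.UM.mz s : ℝ) * ‖Pool.Agent.Q97.UM.dp N b s.im‖ ^ 2 := by
  unfold All
  rw [zeros_eq, H370.finsum_Zf H370.good_zeta h]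
  rfl

lemma point (γ : ℝ) : (1 / 2 + γ * I : ℂ).re = 1 / 2 ∧ (1 / 2 + γ * I : ℂ).im = γ := by
  constructor <;> simp

lemma isolated_image (d T : ℝ) (h : 16 ≤ T) (hd : d ≤ 1) : ((Pool.Agent.Q97.UM.ZI d T : Finset ℂ) : Set ℂ) =
    (fun γ : ℝ => (1 / 2 + γ * I : ℂ)) '' isolated d T := by
  ext s
  simp only [SetLike.mem_coe, Pool.Agent.Q97.UM.mem_ZI_iff h hd, Set.mem_image]
  constructor
  · rintro ⟨h1, h2, h3, h4, h5, h6⟩
    have hs : (1 / 2 + s.im * I : ℂ) = s := by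
      apply Complex.ext
      · simp [h1]
      · simp
    refine ⟨s.im, ⟨h2, h3, ?_, ?_, ?_⟩, hs⟩
    · rw [hs]; exact h4
    · rw [hs]; exact h5
    · rw [hs]; exact h6
  · rintro ⟨γ, ⟨h1, h2, h3, h4, h5⟩, rfl⟩
    exact ⟨(point γ).1, by rw [(point γ).2]; exact h1, by rw [(point γ).2]; exact h2, h3, h4, h5⟩

lemma isolated_eq (d T : ℝ) (h : 16 ≤ T) (hd : d ≤ 1) (N : ℕ) (b : ℕ → ℂ) :
    Isolated d T N b = ∑ s ∈ Pool.Agent.Q97.UM.ZI d T, ‖Pool.Agent.Q97.UM.dp N b s.im‖ ^ 2 := by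
  unfold Isolated
  rw [← finsum_mem_coe_finset, isolated_image d T h hd, finsum_mem_image]
  · apply finsum_congr
    intro γ
    apply finsum_congr
    intro _
    unfold Pool.Agent.Q97.UM.dp B
    simp
  · intro x _ y _ hxy
    have := congrArg Complex.im hxy
    simpa using this

/-- **isolated simple zeros on the critical line, relative to every Dirichlet polynomial** -/
theorem result :
    (∀ d T : ℝ, 0 < T → (zeros T).Finite ∧ (isolated d T).Finite) ∧
    (∃ d θ T₀ : ℝ, 0 < d ∧ 0 < θ ∧ ∀ T : ℝ, T₀ ≤ T → ∀ N : ℕ, (N : ℝ) ≤ T ^ θ → ∀ b : ℕ → ℂ,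
      0.6725 * Mean T N b ≤ Isolated d T N b ∧ 0.6725 * All T N b ≤ Isolated d T N b) ∧
    (∀ ε : ℝ, 0 < ε → ∃ d θ T₀ : ℝ, 0 < d ∧ 0 < θ ∧ ∀ T : ℝ, T₀ ≤ T → ∀ N : ℕ, (N : ℝ) ≤ T ^ θ → ∀ b : ℕ → ℂ,
      (2 - c - ε) * Mean T N b ≤ Isolated d T N b ∧ |All T N b - Mean T N b| ≤ ε * Mean T N b) := by
  have key : ∀ ε : ℝ, 0 < ε → ∃ d θ T₀ : ℝ, 0 < d ∧ 0 < θ ∧ ∀ T : ℝ, T₀ ≤ T → ∀ N : ℕ, (N : ℝ) ≤ T ^ θ → ∀ b : ℕ → ℂ,
      (2 - c - ε) * Mean T N b ≤ Isolated d T N b ∧ |All T N b - Mean T N b| ≤ ε * Mean T N b ∧ 0 ≤ Mean T N b := by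
    intro ε₀ hε₀
    obtain ⟨ε, hε⟩ : ∃ ε : ℝ, ε = min ε₀ (1 / 10) := ⟨_, rfl⟩
    have hε0 : 0 < ε := by rw [hε]; positivity
    have hε1 : ε ≤ 1 / 10 := by rw [hε]; exact min_le_right _ _
    have hε2 : ε ≤ ε₀ := by rw [hε]; exact min_le_left _ _
    obtain ⟨θ', hθ0', hθ1', h⟩ := Pool.Agent.Q97.UM.b_SAMP (ε / 32) (by positivity)
    obtain ⟨d, θ'', hd0, hd1, hθ0'', hθ1'', hI⟩ := Pool.Agent.Q97.UM.b_SAMPI (ε / 32) (by positivity)
    have h2 := Pool.Agent.Q97.UM.mv_rel (ε / 32) (by positivity)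
    obtain ⟨T₀, hT₀⟩ := eventually_atTop.1 ((h.and (h2.and hI)).and (eventually_ge_atTop 16))
    refine ⟨d, min θ' θ'', T₀, hd0, by positivity, ?_⟩
    intro T hT N hN0
    obtain ⟨⟨h3, h4, h5'⟩, h5⟩ := hT₀ T hT
    have hT0 : 0 < T := by linarith
    have hN : (N : ℝ) ≤ T ^ θ' := hN0.trans (Real.rpow_le_rpow_of_exponent_le (by linarith) (min_le_left _ _))
    have hN'' : (N : ℝ) ≤ T ^ θ'' := hN0.trans (Real.rpow_le_rpow_of_exponent_le (by linarith) (min_le_right _ _))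
    intro b
    have hN40 : (N : ℝ) ≤ T ^ (1 / 40 : ℝ) := hN.trans (Real.rpow_le_rpow_of_exponent_le (by linarith) hθ1')
    obtain ⟨_, _, a3⟩ := h3 N hN b
    have a4 := h4 N hN40 b
    have a1 := h5' N hN'' b
    have hc : c = H370.cMTinv := rfl
    rw [hc]
    have hc2 := H370.cMTinv_lt
    have hc1 := H370.cMTinv_gt_one
    have hsim := isolated_eq d T h5 hd1 N b
    have hall := all_eq T (by linarith) N b
    have hMean : Mean T N b = Real.log T / (2 * Real.pi) * ∫ t in T..(2 * T), ‖Pool.Agent.Q97.UM.dp N b t‖ ^ 2 := rfl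
    set S := Isolated d T N b with hS
    set A := All T N b with hA
    set m := Mean T N b with hm
    set J := ∫ t in T..(2 * T), ‖Pool.Agent.Q97.UM.dp N b t‖ ^ 2 with hJ
    set X := T * Pool.Agent.Q97.UM.N2 N b with hX
    have hX0 : 0 ≤ X := by
      rw [hX]; unfold Pool.Agent.Q97.UM.N2; positivity
    have hpi := Real.pi_pos
    have hpi3 := Real.pi_gt_three
    have hpi4 := Real.pi_le_four
    have hL0 : 0 < Real.log T := Real.log_pos (by linarith)
    set w := Real.log T / (2 * Real.pi) with hw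
    have hw0 : 0 < w := by positivity
    have hlw : Real.log T = w * (2 * Real.pi) := by rw [hw]; field_simp
    rw [← hsim] at a1
    rw [← hall, hlw] at a3
    rw [abs_le] at a4 a3
    have b1 : (1 - ε / 32) * (w * X) ≤ m := by
      rw [hMean]
      have : (1 - ε / 32) * X ≤ J := by linarith [a4.1]
      calc (1 - ε / 32) * (w * X) = w * ((1 - ε / 32) * X) := by ring
        _ ≤ w * J := by gcongr
    have b2 : m ≤ (1 + ε / 32) * (w * X) := by
      rw [hMean]
      have : J ≤ (1 + ε / 32) * X := by linarith [a4.2]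
      calc w * J ≤ w * ((1 + ε / 32) * X) := by gcongr
        _ = (1 + ε / 32) * (w * X) := by ring
    set Y := w * X with hY
    have hY0 : 0 ≤ Y := by positivity
    have hm0 : 0 ≤ m := le_trans (mul_nonneg (by linarith) hY0) b1
    have a1' : (2 - H370.cMTinv - ε / 32) * Y ≤ S := by
      calc _ = (2 - H370.cMTinv - ε / 32) * w * X := by rw [hY]; ring
        _ ≤ S := a1
    have hεY : 0 ≤ ε * Y := by positivity
    have c3 : |A - Y| ≤ ε / 4 * Y := by
      rw [abs_le]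
      have e1 : ε / 32 * (w * (2 * Real.pi)) * X = (ε * Y) * (Real.pi / 16) := by rw [hY]; ring
      have e2 : (ε * Y) * (Real.pi / 16) ≤ (ε * Y) * (1 / 4) := mul_le_mul_of_nonneg_left (by linarith) hεY
      have e3 : w * X = Y := rfl
      constructor
      · linarith [a3.1]
      · linarith [a3.2]
    rw [abs_le] at c3
    refine ⟨?_, ?_, hm0⟩
    · have d0 : (2 - H370.cMTinv - ε₀) * m ≤ (2 - H370.cMTinv - ε) * m := by
        apply mul_le_mul_of_nonneg_right _ hm0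
        linarith
      have d1 : (2 - H370.cMTinv - ε) * m ≤ (2 - H370.cMTinv - ε) * ((1 + ε / 32) * Y) :=
        mul_le_mul_of_nonneg_left b2 (by linarith)
      have d2 : (2 - H370.cMTinv - ε) * (1 + ε / 32) ≤ 2 - H370.cMTinv - ε / 32 := by nlinarith
      calc _ ≤ (2 - H370.cMTinv - ε) * ((1 + ε / 32) * Y) := d0.trans d1
        _ = ((2 - H370.cMTinv - ε) * (1 + ε / 32)) * Y := by ring
        _ ≤ (2 - H370.cMTinv - ε / 32) * Y := mul_le_mul_of_nonneg_right d2 hY0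
        _ ≤ S := a1'
    · have d0 : ε * m ≤ ε₀ * m := mul_le_mul_of_nonneg_right hε2 hm0
      refine le_trans ?_ d0
      rw [abs_le]
      have d1 : ε * ((1 - ε / 32) * Y) ≤ ε * m := mul_le_mul_of_nonneg_left b1 hε0.le
      have d2 : ε * ((1 - ε / 32) * Y) ≥ ε / 2 * Y := by
        have : ε * (1 - ε / 32) ≥ ε / 2 := by nlinarith
        calc ε * ((1 - ε / 32) * Y) = (ε * (1 - ε / 32)) * Y := by ring
          _ ≥ ε / 2 * Y := mul_le_mul_of_nonneg_right this hY0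
      constructor
      · linarith [c3.1]
      · linarith [c3.2]
  refine ⟨fun d T hT => ⟨zeros_finite T hT, isolated_finite d T hT⟩, ?_, ?_⟩
  · obtain ⟨d, θ, T₀, hd, hθ, h⟩ := key (1 / 10 ^ 7) (by norm_num)
    refine ⟨d, θ, T₀, hd, hθ, ?_⟩
    intro T hT N hN b
    obtain ⟨h1, h2, h3⟩ := h T hT N hN b
    have hc : c ≤ 1.3274995 := Pool.Agent.Q97.UM.cMT_strict
    rw [abs_le] at h2
    constructor
    · refine le_trans ?_ h1
      apply mul_le_mul_of_nonneg_right _ h3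
      norm_num at hc ⊢
      linarith
    · refine le_trans ?_ h1
      have e1 : All T N b ≤ (1 + 1 / 10 ^ 7) * Mean T N b := by linarith [h2.2]
      calc 0.6725 * All T N b ≤ 0.6725 * ((1 + 1 / 10 ^ 7) * Mean T N b) := by
            apply mul_le_mul_of_nonneg_left e1 (by norm_num)
        _ = (0.6725 * (1 + 1 / 10 ^ 7)) * Mean T N b := by ring
        _ ≤ _ := by
            apply mul_le_mul_of_nonneg_right _ h3
            norm_num at hc ⊢
            linarith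
  · intro ε hε
    obtain ⟨d, θ, T₀, hd, hθ, h⟩ := key ε hε
    refine ⟨d, θ, T₀, hd, hθ, ?_⟩
    intro T hT N hN b
    obtain ⟨h1, h2, _⟩ := h T hT N hN b
    exact ⟨h1, h2⟩

end

end Pool.Agent.Results.MP_af3d17_nt.IsolatedForEveryPolynomial
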