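import Pool.Agent.Q63.RZ.Pr

/-!
# The zeta function on the critical line next to two neighbouring zeros, multiple zeros and zeros
off the line, against its maximum over a window of bounded length
-/

set_option autoImplicit false

open Complex

namespace Pool.Agent.Results.MP_af3d17_nt.PairsOfZeros

/-- There is a pair of zeros next to `1/2 + it` with product `q`, that is, with `L = log t`: there are
two distinct zeros `1/2 + iγ`, `1/2 + iγ'` with `|γ - γ'| ≤ 2 π / L` and `q = L² (γ - t) (γ' - t)`, or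
a zero `ρ` off the critical line or multiple with `q = (L |ρ - 1/2 - it|)²`. -/
def pair (t q : ℝ) : Prop :=
  (∃ γ γ' : ℝ, riemannZeta (1 / 2 + γ * I) = 0 ∧ riemannZeta (1 / 2 + γ' * I) = 0 ∧ γ ≠ γ' ∧
    |γ - γ'| ≤ 2 * Real.pi / Real.log t ∧ q = Real.log t ^ 2 * ((γ - t) * (γ' - t))) ∨
  ∃ ρ : ℂ, riemannZeta ρ = 0 ∧ (ρ.re ≠ 1 / 2 ∨ deriv riemannZeta ρ = 0) ∧
    q = (Real.log t * ‖ρ - (1 / 2 + t * I)‖) ^ 2

/-- For every `ε > 0` there are `D, t₀` such that for all `t ≥ t₀` and every pair of zeros next to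
`1/2 + it` with product `q`: if `M` bounds `|ζ(1/2 + iu)|` for `|u - t| ≤ D` and `q ≤ 3 π²`, then
`|ζ(1/2 + it)| ≤ (1 + ε) |cos (√(π² + q) / 2)| M`; and so, if `|ζ(1/2 + it)|` is the maximum over
`|u - t| ≤ D`, then `q ≤ -(1 - ε) π²` or `q ≥ (3 - ε) π²`. -/
theorem result (ε : ℝ) (hε : 0 < ε) : ∃ D t₀ : ℝ, ∀ t : ℝ, t₀ ≤ t → ∀ q : ℝ, pair t q →
    (q ≤ 3 * Real.pi ^ 2 → ∀ M : ℝ,
      (∀ u : ℝ, |u - t| ≤ D → ‖riemannZeta (1 / 2 + u * I)‖ ≤ M) →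
        ‖riemannZeta (1 / 2 + t * I)‖ ≤
          (1 + ε) * |Real.cos (Real.sqrt (Real.pi ^ 2 + q) / 2)| * M) ∧
    ((∀ u : ℝ, |u - t| ≤ D →
        ‖riemannZeta (1 / 2 + u * I)‖ ≤ ‖riemannZeta (1 / 2 + t * I)‖) →
      q ≤ -((1 - ε) * Real.pi ^ 2) ∨ (3 - ε) * Real.pi ^ 2 ≤ q) := by
  obtain ⟨D₁, _, H₁⟩ := Q63.RZ.pair_bd hε
  obtain ⟨D₂, _, H₂⟩ := Q63.RZ.pair_max hε
  obtain ⟨t₁, ht₁⟩ := Filter.eventually_atTop.mp (H₁.and H₂)
  refine ⟨max D₁ D₂, t₁, fun t ht q hq => ⟨fun hq3 M hM => ?_, fun hM => ?_⟩⟩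
  · exact (ht₁ t ht).1 M (fun u hu => hM u (hu.trans (le_max_left _ _))) q hq3 hq
  · exact (ht₁ t ht).2 (fun u hu => hM u (hu.trans (le_max_right _ _))) q hq

end Pool.Agent.Results.MP_af3d17_nt.PairsOfZeros
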